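import Pool.Agent.H717.NL.Stmts2

/-!
# Project NL717 (helper717), task INTERL: Cauchy interlacing for continuants
-/

set_option autoImplicit false

open Polynomial

namespace Pool.Agent.H665.NL

open Pool.Agent.H717.NL

/-- expansion in an orthonormal basis -/
theorem expand {n : ℕ} {u : Fin n → Fin n → ℝ} (hu : ON u) (y : Fin n → ℝ) :
    ∑ k, (u k ⬝ᵥ y) • u k = y := by
  set U : Matrix (Fin n) (Fin n) ℝ := Matrix.of u with hU
  have h1 : U * U.transpose = 1 := by
    ext i j
    rw [Matrix.mul_apply, Matrix.one_apply]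
    exact hu i j
  have h2 : U.transpose * U = 1 := mul_eq_one_comm.mp h1
  have h3 : U.transpose.mulVec (U.mulVec y) = y := by
    rw [Matrix.mulVec_mulVec, h2, Matrix.one_mulVec]
  refine Eq.trans ?_ h3
  funext s
  simp only [Finset.sum_apply, Pi.smul_apply, smul_eq_mul]
  show _ = ∑ k, U.transpose s k * U.mulVec y k
  refine Finset.sum_congr rfl fun k _ => ?_
  rw [mul_comm]
  rfl

theorem norm_expand {n : ℕ} {u : Fin n → Fin n → ℝ} (hu : ON u) (y : Fin n → ℝ) :
    y ⬝ᵥ y = ∑ k, (u k ⬝ᵥ y) ^ 2 := by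
  conv_lhs => rw [← expand hu y]
  rw [sum_dotProduct]
  refine Finset.sum_congr rfl fun k _ => ?_
  rw [smul_dotProduct, expand hu y, smul_eq_mul, sq]

theorem quad_expand {n : ℕ} {M : Matrix (Fin n) (Fin n) ℝ} {l : Fin n → ℝ}
    {u : Fin n → Fin n → ℝ} (hu : ON u) (hM : ∀ i, M.mulVec (u i) = l i • u i) (y : Fin n → ℝ) :
    y ⬝ᵥ M.mulVec y = ∑ k, l k * (u k ⬝ᵥ y) ^ 2 := by
  have h1 : M.mulVec y = ∑ k, (u k ⬝ᵥ y) • (l k • u k) := by
    conv_lhs => rw [← expand hu y]
    rw [Matrix.mulVec_sum]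
    refine Finset.sum_congr rfl fun k _ => ?_
    rw [Matrix.mulVec_smul, hM]
  rw [h1, dotProduct_sum]
  refine Finset.sum_congr rfl fun k _ => ?_
  rw [dotProduct_smul, dotProduct_smul, dotProduct_comm y, smul_eq_mul, smul_eq_mul]
  ring

/-- extension by zero -/
def E {n m : ℕ} (σ : Fin n → Fin m) : (Fin n → ℝ) →ₗ[ℝ] (Fin m → ℝ) where
  toFun w s := ∑ j, if s = σ j then w j else 0
  map_add' w w' := by
    funext s
    simp only [Pi.add_apply, ← Finset.sum_add_distrib]
    refine Finset.sum_congr rfl fun j _ => ?_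
    split_ifs <;> simp
  map_smul' c w := by
    funext s
    simp only [Pi.smul_apply, smul_eq_mul, RingHom.id_apply, Finset.mul_sum]
    refine Finset.sum_congr rfl fun j _ => ?_
    split_ifs <;> simp

theorem E_apply {n m : ℕ} (σ : Fin n → Fin m) (hσ : Function.Injective σ) (w : Fin n → ℝ)
    (j : Fin n) : E σ w (σ j) = w j := by
  show ∑ j', (if σ j = σ j' then w j' else 0) = w j
  rw [Finset.sum_eq_single j]
  · simp
  · intro j' _ hne
    rw [if_neg fun h => hne (hσ h).symm]
  · intro h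
    exact absurd (Finset.mem_univ j) h

theorem E_dot {n m : ℕ} (σ : Fin n → Fin m) (z : Fin m → ℝ) (w : Fin n → ℝ) :
    z ⬝ᵥ E σ w = ∑ j, z (σ j) * w j := by
  show ∑ s, z s * ∑ j, (if s = σ j then w j else 0) = _
  simp only [Finset.mul_sum]
  rw [Finset.sum_comm]
  refine Finset.sum_congr rfl fun j _ => ?_
  simp

/-- interlacing -/
theorem interlace {n : ℕ} {M : Matrix (Fin (n + 1)) (Fin (n + 1)) ℝ} {M' : Matrix (Fin n) (Fin n) ℝ}
    {σ : Fin n → Fin (n + 1)} (hσ : Function.Injective σ) (hM' : ∀ i j, M' i j = M (σ i) (σ j))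
    {l : Fin (n + 1) → ℝ} {d : Fin n → ℝ} (hl : Monotone l) (hd : Monotone d)
    {u : Fin (n + 1) → Fin (n + 1) → ℝ} {v : Fin n → Fin n → ℝ} (hu : ON u) (hv : ON v)
    (hMu : ∀ i, M.mulVec (u i) = l i • u i) (hMv : ∀ i, M'.mulVec (v i) = d i • v i) (i : Fin n) :
    l i.castSucc ≤ d i ∧ d i ≤ l i.succ := by
  -- combinations of the `v j`
  let W : (Fin n → ℝ) →ₗ[ℝ] (Fin n → ℝ) := Fintype.linearCombination ℝ v
  have hW : ∀ β, W β = ∑ j, β j • v j := fun β => Fintype.linearCombination_apply ℝ v β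
  have hWv : ∀ β j, v j ⬝ᵥ W β = β j := by
    intro β j
    rw [hW, dotProduct_sum, Finset.sum_eq_single j]
    · rw [dotProduct_smul]
      have := hv j j
      rw [if_pos rfl] at this
      show β j * (∑ s, v j s * v j s) = β j
      rw [this, mul_one]
    · intro j' _ hne
      rw [dotProduct_smul]
      have := hv j j'
      rw [if_neg hne.symm] at this
      show β j' * (∑ s, v j s * v j' s) = 0
      rw [this, mul_zero]
    · intro h
      exact absurd (Finset.mem_univ j) h
  have hquad : ∀ w, E σ w ⬝ᵥ M.mulVec (E σ w) = w ⬝ᵥ M'.mulVec w := by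
    intro w
    rw [dotProduct_comm, E_dot]
    show _ = ∑ j, w j * M'.mulVec w j
    refine Finset.sum_congr rfl fun j _ => ?_
    rw [mul_comm]
    congr 1
    show M (σ j) ⬝ᵥ E σ w = M' j ⬝ᵥ w
    rw [E_dot]
    show _ = ∑ j', M' j j' * w j'
    simp only [hM']
  have hnorm : ∀ w, E σ w ⬝ᵥ E σ w = w ⬝ᵥ w := by
    intro w
    rw [E_dot]
    show _ = ∑ j, w j * w j
    simp only [E_apply σ hσ]
  -- the two quadratic forms for a combination
  have key : ∀ β : Fin n → ℝ, ∑ k, l k * (u k ⬝ᵥ E σ (W β)) ^ 2 = ∑ j, d j * β j ^ 2 ∧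
      ∑ k, (u k ⬝ᵥ E σ (W β)) ^ 2 = ∑ j, β j ^ 2 := by
    intro β
    constructor
    · rw [← quad_expand hu hMu, hquad, quad_expand hv hMv]
      simp only [hWv]
    · rw [← norm_expand hu, hnorm, norm_expand hv]
      simp only [hWv]
  have hex : ∀ T : (Fin n → ℝ) →ₗ[ℝ] (Fin n → ℝ), (∀ β, T β i = 0) → ∃ β, β ≠ 0 ∧ T β = 0 := by
    intro T hT
    by_contra hcon
    push Not at hcon
    have hinj : Function.Injective T := by
      rw [← LinearMap.ker_eq_bot, LinearMap.ker_eq_bot']
      intro β hβ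
      by_contra hne
      exact hcon β hne hβ
    obtain ⟨β, hβ⟩ := (LinearMap.injective_iff_surjective.mp hinj) (fun _ => 1)
    have := congrFun hβ i
    rw [hT] at this
    exact zero_ne_one this
  have hpos : ∀ β : Fin n → ℝ, β ≠ 0 → 0 < ∑ j, β j ^ 2 := by
    intro β hβ
    obtain ⟨j, hj⟩ := Function.ne_iff.mp hβ
    exact Finset.sum_pos' (fun _ _ => sq_nonneg _) ⟨j, Finset.mem_univ j, by
      have : β j ≠ 0 := hj
      positivity⟩
  constructor
  · obtain ⟨β, hβ0, hβ⟩ := hex
      { toFun := fun β j => if i < j then β j else if j < i then u j.castSucc ⬝ᵥ E σ (W β) else 0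
        map_add' := by
          intro β β'
          funext j
          simp only [Pi.add_apply, map_add, dotProduct_add]
          split_ifs <;> simp
        map_smul' := by
          intro c β
          funext j
          simp only [Pi.smul_apply, map_smul, dotProduct_smul, smul_eq_mul, RingHom.id_apply]
          split_ifs <;> simp } (fun β => by simp)
    have h1 : ∀ j, i < j → β j = 0 := by
      intro j hj
      have := congrFun hβ j
      simpa [hj] using this
    have h2 : ∀ k : Fin (n + 1), k < i.castSucc → u k ⬝ᵥ E σ (W β) = 0 := by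
      intro k hk
      have hkn : (k : ℕ) < n := lt_of_lt_of_le hk (by exact_mod_cast i.2.le)
      have hk' : (⟨k, hkn⟩ : Fin n) < i := hk
      have := congrFun hβ ⟨k, hkn⟩
      simpa [hk', not_lt_of_gt hk'] using this
    obtain ⟨k1, k2⟩ := key β
    have e1 : l i.castSucc * ∑ j, β j ^ 2 ≤ d i * ∑ j, β j ^ 2 := by
      calc l i.castSucc * ∑ j, β j ^ 2 = l i.castSucc * ∑ k, (u k ⬝ᵥ E σ (W β)) ^ 2 := by rw [k2]
        _ = ∑ k, l i.castSucc * (u k ⬝ᵥ E σ (W β)) ^ 2 := Finset.mul_sum _ _ _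
        _ ≤ ∑ k, l k * (u k ⬝ᵥ E σ (W β)) ^ 2 := by
          refine Finset.sum_le_sum fun k _ => ?_
          rcases lt_or_ge k i.castSucc with h | h
          · rw [h2 k h]; simp
          · exact mul_le_mul_of_nonneg_right (hl h) (sq_nonneg _)
        _ = ∑ j, d j * β j ^ 2 := k1
        _ ≤ ∑ j, d i * β j ^ 2 := by
          refine Finset.sum_le_sum fun j _ => ?_
          rcases lt_or_ge i j with h | h
          · rw [h1 j h]; simp
          · exact mul_le_mul_of_nonneg_right (hd h) (sq_nonneg _)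
        _ = d i * ∑ j, β j ^ 2 := (Finset.mul_sum _ _ _).symm
    exact le_of_mul_le_mul_right e1 (hpos β hβ0)
  · obtain ⟨β, hβ0, hβ⟩ := hex
      { toFun := fun β j => if j < i then β j else if i < j then u j.succ ⬝ᵥ E σ (W β) else 0
        map_add' := by
          intro β β'
          funext j
          simp only [Pi.add_apply, map_add, dotProduct_add]
          split_ifs <;> simp
        map_smul' := by
          intro c β
          funext j
          simp only [Pi.smul_apply, map_smul, dotProduct_smul, smul_eq_mul, RingHom.id_apply]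
          split_ifs <;> simp } (fun β => by simp)
    have h1 : ∀ j, j < i → β j = 0 := by
      intro j hj
      have := congrFun hβ j
      simpa [hj] using this
    have h2 : ∀ k : Fin (n + 1), i.succ < k → u k ⬝ᵥ E σ (W β) = 0 := by
      intro k hk
      have hk0 : k ≠ 0 := by
        rintro rfl
        exact absurd hk (not_lt_of_ge (Fin.zero_le _))
      obtain ⟨j, rfl⟩ := Fin.exists_succ_eq.mpr hk0
      have hj : i < j := Fin.succ_lt_succ_iff.mp hk
      have := congrFun hβ j
      simpa [hj, not_lt_of_gt hj] using this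
    obtain ⟨k1, k2⟩ := key β
    have e1 : d i * ∑ j, β j ^ 2 ≤ l i.succ * ∑ j, β j ^ 2 := by
      calc d i * ∑ j, β j ^ 2 = ∑ j, d i * β j ^ 2 := Finset.mul_sum _ _ _
        _ ≤ ∑ j, d j * β j ^ 2 := by
          refine Finset.sum_le_sum fun j _ => ?_
          rcases lt_or_ge j i with h | h
          · rw [h1 j h]; simp
          · exact mul_le_mul_of_nonneg_right (hd h) (sq_nonneg _)
        _ = ∑ k, l k * (u k ⬝ᵥ E σ (W β)) ^ 2 := k1.symm
        _ ≤ ∑ k, l i.succ * (u k ⬝ᵥ E σ (W β)) ^ 2 := by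
          refine Finset.sum_le_sum fun k _ => ?_
          rcases lt_or_ge i.succ k with h | h
          · rw [h2 k h]; simp
          · exact mul_le_mul_of_nonneg_right (hl h) (sq_nonneg _)
        _ = l i.succ * ∑ k, (u k ⬝ᵥ E σ (W β)) ^ 2 := (Finset.mul_sum _ _ _).symm
        _ = l i.succ * ∑ j, β j ^ 2 := by rw [k2]
    exact le_of_mul_le_mul_right e1 (hpos β hβ0)

theorem jac_symm (n : ℕ) (a r : ℕ → ℝ) : (jac n a r).IsSymm := by
  ext i j
  rw [Matrix.transpose_apply]
  unfold jac
  simp only [Matrix.of_apply]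
  rcases lt_trichotomy (i : ℕ) j with h | h | h
  · have n1 : ¬ (j : ℕ) = i := by omega
    have n2 : ¬ (j : ℕ) + 1 = i := by omega
    have n3 : ¬ (i : ℕ) = j := by omega
    simp only [n1, n2, n3, if_false]
  · rw [if_pos h.symm, if_pos h, h]
  · have n1 : ¬ (j : ℕ) = i := by omega
    have n2 : ¬ (i : ℕ) + 1 = j := by omega
    have n3 : ¬ (i : ℕ) = j := by omega
    simp only [n1, n2, n3, if_false]

/-- the embedding which omits `p` -/
def sg (p q : ℕ) (j : Fin (p + q)) : Fin (p + q + 1) :=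
  if h : (j : ℕ) < p then ⟨j, by omega⟩ else ⟨j + 1, by omega⟩

theorem sg_left {p q : ℕ} (j : Fin p) : ((sg p q (Fin.castAdd q j) : Fin (p + q + 1)) : ℕ) = j := by
  unfold sg
  rw [dif_pos (by simp)]
  simp

theorem sg_right {p q : ℕ} (j : Fin q) :
    ((sg p q (Fin.natAdd p j) : Fin (p + q + 1)) : ℕ) = p + 1 + j := by
  unfold sg
  rw [dif_neg (by simp)]
  simp
  omega

theorem sg_inj (p q : ℕ) : Function.Injective (sg p q) := by
  intro i j h
  have h1 := congrArg Fin.val h
  unfold sg at h1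
  apply Fin.ext
  split_ifs at h1 <;> simp at h1 <;> omega

theorem sub_eq (p q : ℕ) (a r : ℕ → ℝ) :
    (jac (p + q + 1) a r).submatrix (sg p q) (sg p q) =
      Matrix.reindex finSumFinEquiv finSumFinEquiv (Matrix.fromBlocks (jac p a r) 0 0
        (jac q (fun i => a (p + 1 + i)) (fun i => r (p + 1 + i)))) := by
  ext i j
  obtain ⟨i, rfl⟩ := finSumFinEquiv.surjective i
  obtain ⟨j, rfl⟩ := finSumFinEquiv.surjective j
  rw [Matrix.reindex_apply, Matrix.submatrix_apply, Matrix.submatrix_apply,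
    Equiv.symm_apply_apply, Equiv.symm_apply_apply]
  rcases i with i | i <;> rcases j with j | j
  · rw [Matrix.fromBlocks_apply₁₁, finSumFinEquiv_apply_left, finSumFinEquiv_apply_left]
    unfold jac
    simp only [Matrix.of_apply, sg_left]
  · rw [Matrix.fromBlocks_apply₁₂, finSumFinEquiv_apply_left, finSumFinEquiv_apply_right]
    unfold jac
    simp only [Matrix.of_apply, sg_left, sg_right, Matrix.zero_apply]
    rw [if_neg (by omega), if_neg (by omega), if_neg (by omega)]
  · rw [Matrix.fromBlocks_apply₂₁, finSumFinEquiv_apply_left, finSumFinEquiv_apply_right]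
    unfold jac
    simp only [Matrix.of_apply, sg_left, sg_right, Matrix.zero_apply]
    rw [if_neg (by omega), if_neg (by omega), if_neg (by omega)]
  · rw [Matrix.fromBlocks_apply₂₂, finSumFinEquiv_apply_right, finSumFinEquiv_apply_right]
    unfold jac
    simp only [Matrix.of_apply, sg_right]
    have e1 : (p + 1 + (i : ℕ) = p + 1 + j) ↔ (i : ℕ) = j := by omega
    have e2 : (p + 1 + (i : ℕ) + 1 = p + 1 + j) ↔ (i : ℕ) + 1 = j := by omega
    have e3 : (p + 1 + (j : ℕ) + 1 = p + 1 + i) ↔ (j : ℕ) + 1 = i := by omega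
    simp only [e1, e2, e3]

/-- **INTERL** -/
theorem t_interl (h1 : S_jac) (h3 : S_basis) : S_interl := by
  intro a c p q hc l d hl hd hB hD i
  have hr : ∀ f : ℕ → ℝ, (∀ i, 0 ≤ f i) → (fun i => (√(f i)) ^ 2) = f := by
    intro f hf
    funext i
    exact Real.sq_sqrt (hf i)
  set r : ℕ → ℝ := fun i => √(c i) with hrd
  set M := jac (p + q + 1) a r with hM
  set M' := M.submatrix (sg p q) (sg p q) with hM'
  have hMs : M.IsSymm := jac_symm _ _ _
  have hM's : M'.IsSymm := hMs.submatrix _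
  have hc1 : M.charpoly = ∏ i, (X - C (l i)) := by
    rw [hM, h1, ← hB, hr c hc]
  have hc2 : M'.charpoly = ∏ i, (X - C (d i)) := by
    rw [hM', hM, sub_eq, Matrix.charpoly_reindex, Matrix.charpoly_fromBlocks_zero₁₂, h1, h1, ← hD,
      hr c hc]
    congr 2
    exact hr (fun i => c (p + 1 + i)) fun i => hc _
  obtain ⟨u, hu, hMu⟩ := h3 _ M l hMs ⟨hl, hc1⟩
  obtain ⟨v, hv, hMv⟩ := h3 _ M' d hM's ⟨hd, hc2⟩
  exact interlace (sg_inj p q) (fun i j => rfl) hl hd hu hv hMu hMv i

end Pool.Agent.H665.NL
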